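import Mathlib

set_option autoImplicit false

namespace Pool.Agent.Results.MP_5e6778_nt.NotSylvester

open Finset

/-- `S` is a union of `r` blocks of consecutive integers. -/
def Blocks (r : ℕ) (S : Finset ℕ) : Prop :=
  ∃ a b : Fin r → ℕ, (∀ i, a i ≤ b i) ∧ S = univ.biUnion fun i => Icc (a i) (b i)

/-- `S` is the set of denominators of an `r`-block representation of `1`. -/
def IsBlockRep (r : ℕ) (S : Finset ℕ) : Prop :=
  (∀ x ∈ S, 0 < x) ∧ ∑ x ∈ S, (1 : ℚ) / x = 1 ∧ Blocks r S

/-- Sylvester's sequence with `syl 1 = 2` (and the unused value `syl 0 = 2`). -/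
def syl : ℕ → ℕ
  | 0 => 2
  | 1 => 2
  | n + 2 => syl (n + 1) ^ 2 - syl (n + 1) + 1

theorem blocks_insert {r : ℕ} {S : Finset ℕ} (h : Blocks r S) (x : ℕ) :
    Blocks (r + 1) (insert x S) := by
  obtain ⟨a, b, hab, rfl⟩ := h
  refine ⟨Fin.cons x a, Fin.cons x b, fun i => ?_, ?_⟩
  · induction i using Fin.cases with
    | zero => simp
    | succ i => simpa using hab i
  · ext y
    simp [Fin.exists_fin_succ, ← le_antisymm_iff, eq_comm]

theorem step (r : ℕ) : ∃ (S : Finset ℕ) (x : ℕ), Blocks (r + 2) S ∧ (∀ y ∈ S, 0 < y ∧ y < x) ∧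
    ∑ y ∈ S, (1 : ℚ) / y + 1 / x = 1 ∧ syl (r + 4) ^ 2 ≤ x ∧ 0 < x := by
  induction r with
  | zero =>
    refine ⟨Icc 4 9 ∪ Icc 230 230, 57960, ⟨![4, 230], ![9, 230], by decide, by decide⟩, by decide,
      ?_, by decide, by decide⟩
    rw [show Icc 4 9 ∪ Icc 230 230 = ({4, 5, 6, 7, 8, 9, 230} : Finset ℕ) by decide]
    norm_num
  | succ r ih =>
    obtain ⟨S, x, hS, hy, hsum, hx, hx0⟩ := ih
    refine ⟨insert (x + 1) S, x * (x + 1), blocks_insert hS _, ?_, ?_, ?_, by positivity⟩
    · intro y hy'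
      have h4 : 4 ≤ x := by
        have : 2 ≤ syl (r + 4) := by
          have : ∀ n, 2 ≤ syl n := by
            intro n
            induction n using Nat.strong_induction_on with
            | _ n ih =>
              match n with
              | 0 => simp [syl]
              | 1 => simp [syl]
              | n + 2 =>
                have := ih (n + 1) (by omega)
                rw [syl]
                have : syl (n + 1) + 1 ≤ syl (n + 1) ^ 2 := by nlinarith
                omega
          exact this _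
        nlinarith
      rcases mem_insert.1 hy' with rfl | h
      · exact ⟨by omega, by nlinarith⟩
      · exact ⟨(hy y h).1, by nlinarith [(hy y h).2]⟩
    · rw [sum_insert fun h => by have := (hy _ h).2; omega]
      have : (x : ℚ) ≠ 0 := by positivity
      have e : (1 : ℚ) / (x + 1) + 1 / (x * (x + 1)) = 1 / x := by field_simp
      push_cast
      linarith
    · rw [show r + 1 + 4 = (r + 3) + 2 by ring, syl]
      have h1 : 1 ≤ syl (r + 3 + 1) := by
        rw [show r + 3 + 1 = (r + 2) + 2 by ring, syl]; omega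
      have h2 : syl (r + 3 + 1) ^ 2 - syl (r + 3 + 1) + 1 ≤ x := by
        have : syl (r + 3 + 1) ≤ syl (r + 3 + 1) ^ 2 := by nlinarith
        have : syl (r + 3 + 1) ^ 2 ≤ x := hx
        omega
      nlinarith

/-- For every `r ≥ 2` some `r`-block representation has a denominator larger than the value
`s_{r+1} - 1` of the Sylvester representation, and for `r ≥ 3` at least `s_{r+1} ^ 2`. -/
theorem result (r : ℕ) (hr : 2 ≤ r) : ∃ S : Finset ℕ, IsBlockRep r S ∧
    ∃ x ∈ S, syl (r + 1) - 1 < x ∧ (3 ≤ r → syl (r + 1) ^ 2 ≤ x) := by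
  rcases hr.eq_or_lt with rfl | hr
  · refine ⟨{3, 4, 5, 6, 20}, ⟨by decide, by norm_num, ![3, 20], ![6, 20], by decide, by decide⟩,
      20, by decide, by decide, by decide⟩
  · obtain ⟨k, rfl⟩ : ∃ k, r = k + 3 := ⟨r - 3, by omega⟩
    obtain ⟨S, x, hS, hy, hsum, hx, hx0⟩ := step k
    refine ⟨insert x S, ⟨?_, ?_, blocks_insert hS x⟩, x, mem_insert_self _ _, ?_, fun _ => hx⟩
    · intro y hy'
      rcases mem_insert.1 hy' with rfl | h
      · exact hx0
      · exact (hy y h).1
    · rw [sum_insert fun h => lt_irrefl _ (hy _ h).2, add_comm, hsum]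
    · have : syl (k + 3 + 1) ≤ syl (k + 4) ^ 2 := Nat.le_self_pow (by norm_num) _
      omega

end Pool.Agent.Results.MP_5e6778_nt.NotSylvester
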